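import Pool.Agent.Helper2.P11.StP

/-! # Project P11 (levels `11^n`): module Ex (every solution of the relation comes from a symbol) -/

set_option autoImplicit false

namespace Pool.Agent.Helper2.P11

open Pool.Agent.Helper14.CV (Homog EqC act Tl StFar StFex)
open Pool.Agent.Helper28.WK (SymP Tw evw Ok)
open Pool.Agent.Helper84.P11 (Pl11 rY11 edge11 tr11 Fn11 S11PlA S11PlU S11Edg S11Trm S11Tre)

private theorem ndm {a b : ℤ} (ha : ¬ (11 : ℤ) ∣ a) (hb : ¬ (11 : ℤ) ∣ b) : ¬ (11 : ℤ) ∣ a * b := by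
  intro h
  rcases (Int.prime_ofNat_iff.2 (by norm_num : Nat.Prime 11)).dvd_or_dvd h with h | h
  · exact ha h
  · exact hb h

private theorem cop {r : ℕ} {a : ℤ} (h : ¬ (11 : ℤ) ∣ a) : IsUnit ((a : ℤ) : ZMod (11 ^ r)) := by
  have h1 : IsCoprime a 11 := by
    have := (Int.prime_ofNat_iff.2 (by norm_num : Nat.Prime 11)).coprime_iff_not_dvd.2 h
    exact this.symm
  have h2 : IsCoprime a ((11 ^ r : ℕ) : ℤ) := by
    push_cast
    exact h1.pow_right
  exact (ZMod.coe_int_isUnit_iff_isCoprime a (11 ^ r)).2 h2.symm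

private theorem den {r : ℕ} {a c : ℤ} (x : ZMod (11 ^ r)) (h : ¬ (11 : ℤ) ∣ a) :
    IsUnit ((a : ZMod (11 ^ r)) + 11 * c * x) := by
  have : NeZero (11 ^ r) := ⟨pow_ne_zero _ (by norm_num)⟩
  have : (a : ZMod (11 ^ r)) + 11 * c * x = ((a + 11 * c * (x.val : ℤ) : ℤ) : ZMod (11 ^ r)) := by
    push_cast
    rw [ZMod.natCast_zmod_val]
  rw [this]
  apply cop
  intro h3
  exact h ((dvd_add_left (⟨c * (x.val : ℤ), by ring⟩ : (11 : ℤ) ∣ 11 * c * (x.val : ℤ))).1 h3)

private theorem res {a b c d : ℤ} (h : ¬ (11 : ℤ) ∣ a * d - 11 * (b * c)) :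
    ¬ (11 : ℤ) ∣ a ∧ ¬ (11 : ℤ) ∣ d := by
  constructor
  · rintro ⟨k, rfl⟩
    exact h ⟨k * d - b * c, by ring⟩
  · rintro ⟨k, rfl⟩
    exact h ⟨a * k - b * c, by ring⟩

/-- `(a b; 11c d)` has the coordinates `(x, y)` -/
private def Pt {r s : ℕ} (a b c d : ℤ) (x : ZMod (11 ^ r)) (y : ZMod (11 ^ s)) : Prop :=
  ¬ (11 : ℤ) ∣ a ∧ ¬ (11 : ℤ) ∣ d ∧ (b : ZMod (11 ^ r)) = x * a ∧ (c : ZMod (11 ^ s)) = y * d

private theorem pt_mk (r s : ℕ) {a b c d : ℤ} (ha : ¬ (11 : ℤ) ∣ a) (hd : ¬ (11 : ℤ) ∣ d) :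
    ∃ (x : ZMod (11 ^ r)) (y : ZMod (11 ^ s)), Pt a b c d x y := by
  refine ⟨(b : ZMod (11 ^ r)) * (a : ZMod (11 ^ r))⁻¹, (c : ZMod (11 ^ s)) * (d : ZMod (11 ^ s))⁻¹,
    ha, hd, ?_, ?_⟩
  · rw [mul_assoc, ZMod.inv_mul_of_unit _ (cop ha), mul_one]
  · rw [mul_assoc, ZMod.inv_mul_of_unit _ (cop hd), mul_one]

private theorem pt_scale {r s : ℕ} {a b c d k A B C D : ℤ} {x : ZMod (11 ^ r)} {y : ZMod (11 ^ s)}
    (h : Pt a b c d x y) (hk : ¬ (11 : ℤ) ∣ k) (hA : A = k * a) (hB : B = k * b) (hC : C = k * c)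
    (hD : D = k * d) : Pt A B C D x y := by
  obtain ⟨h1, h2, h3, h4⟩ := h
  subst hA hB hC hD
  refine ⟨ndm hk h1, ndm hk h2, ?_, ?_⟩
  · push_cast
    rw [h3]
    ring
  · push_cast
    rw [h4]
    ring

private theorem pt_mul {r s : ℕ} {a b c d : ℤ} {x : ZMod (11 ^ r)} {y : ZMod (11 ^ s)}
    (h : Pt a b c d x y) {α β γ δ : ℤ} (hα : ¬ (11 : ℤ) ∣ α) (hδ : ¬ (11 : ℤ) ∣ δ) :
    Pt (a * α + 11 * b * γ) (a * β + b * δ) (c * α + d * γ) (11 * c * β + d * δ)
      (((β : ZMod (11 ^ r)) + (δ : ZMod (11 ^ r)) * x) *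
        ((α : ZMod (11 ^ r)) + 11 * (γ : ZMod (11 ^ r)) * x)⁻¹)
      (((γ : ZMod (11 ^ s)) + (α : ZMod (11 ^ s)) * y) *
        ((δ : ZMod (11 ^ s)) + 11 * (β : ZMod (11 ^ s)) * y)⁻¹) := by
  obtain ⟨h1, h2, h3, h4⟩ := h
  have u1 := ZMod.inv_mul_of_unit _ (den (r := r) (a := α) (c := γ) x hα)
  have u2 := ZMod.inv_mul_of_unit _ (den (r := s) (a := δ) (c := β) y hδ)
  refine ⟨?_, ?_, ?_, ?_⟩
  · intro h
    exact ndm h1 hα ((dvd_add_left (⟨b * γ, by ring⟩ : (11 : ℤ) ∣ 11 * b * γ)).1 h)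
  · intro h
    exact ndm h2 hδ ((dvd_add_right (⟨c * β, by ring⟩ : (11 : ℤ) ∣ 11 * c * β)).1 h)
  · push_cast
    rw [h3]
    linear_combination (-((a : ZMod (11 ^ r)) * ((β : ZMod (11 ^ r)) + δ * x))) * u1
  · push_cast
    rw [h4]
    linear_combination (-((d : ZMod (11 ^ s)) * ((γ : ZMod (11 ^ s)) + α * y))) * u2

private theorem pt_left {r s : ℕ} {a b c d : ℤ} {x : ZMod (11 ^ r)} {y : ZMod (11 ^ s)}
    (h : Pt a b c d x y) {α β γ δ A B C D : ℤ} (hα : ¬ (11 : ℤ) ∣ α) (hδ : ¬ (11 : ℤ) ∣ δ)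
    (hA : A = α * a + 11 ^ r * β * (11 * c)) (hB : B = α * b + 11 ^ r * β * d)
    (hC : C = 11 ^ s * γ * a + δ * c) (hD : D = 11 ^ (s + 1) * γ * b + δ * d) : Pt A B C D x y := by
  obtain ⟨h1, h2, h3, h4⟩ := h
  subst hA hB hC hD
  have z1 : ((11 : ℤ) ^ r : ZMod (11 ^ r)) = 0 := by
    have := ZMod.natCast_self (11 ^ r)
    push_cast at this ⊢
    exact this
  have z2 : ((11 : ℤ) ^ s : ZMod (11 ^ s)) = 0 := by
    have := ZMod.natCast_self (11 ^ s)
    push_cast at this ⊢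
    exact this
  refine ⟨?_, ?_, ?_, ?_⟩
  · intro h
    exact ndm hα h1 ((dvd_add_left
      (⟨11 ^ r * β * c, by ring⟩ : (11 : ℤ) ∣ 11 ^ r * β * (11 * c))).1 h)
  · intro h
    exact ndm hδ h2 ((dvd_add_right
      (⟨11 ^ s * γ * b, by ring⟩ : (11 : ℤ) ∣ 11 ^ (s + 1) * γ * b)).1 h)
  · push_cast at z1 ⊢
    rw [z1, h3]
    ring
  · push_cast at z2 ⊢
    rw [pow_succ, z2, h4]
    ring

/-! ### the function -/

private noncomputable def PX (r : ℕ) (a b : ℤ) : ZMod (11 ^ r) :=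
  ((b : ℤ) : ZMod (11 ^ r)) * ((a : ℤ) : ZMod (11 ^ r))⁻¹

private theorem px_eq {r : ℕ} {a b A B : ℤ} {x : ZMod (11 ^ r)} (hA : A = a) (hB : B = b)
    (ha : ¬ (11 : ℤ) ∣ a) (h : (b : ZMod (11 ^ r)) = x * a) : PX r A B = x := by
  subst hA hB
  unfold PX
  rw [h, mul_assoc, ZMod.mul_inv_of_unit _ (cop ha), mul_one]

private theorem pt_sc {r s : ℕ} {a b c d m k A B C D : ℤ} {x : ZMod (11 ^ r)} {y : ZMod (11 ^ s)}
    (h : Pt a b c d x y) (hm : ¬ (11 : ℤ) ∣ m) (hk : ¬ (11 : ℤ) ∣ k) (hA : m * A = k * a)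
    (hB : m * B = k * b) (hC : m * C = k * c) (hD : m * D = k * d) : Pt A B C D x y := by
  obtain ⟨h1, h2, h3, h4⟩ := h
  refine ⟨?_, ?_, ?_, ?_⟩
  · intro h
    exact ndm hk h1 (hA ▸ Dvd.dvd.mul_left h m)
  · intro h
    exact ndm hk h2 (hD ▸ Dvd.dvd.mul_left h m)
  · have hA' := congrArg (Int.cast : ℤ → ZMod (11 ^ r)) hA
    have hB' := congrArg (Int.cast : ℤ → ZMod (11 ^ r)) hB
    push_cast at hA' hB'
    apply (cop (r := r) hm).mul_left_cancel
    linear_combination hB' + k * h3 - x * hA'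
  · have hC' := congrArg (Int.cast : ℤ → ZMod (11 ^ s)) hC
    have hD' := congrArg (Int.cast : ℤ → ZMod (11 ^ s)) hD
    push_cast at hC' hD'
    apply (cop (r := s) hm).mul_left_cancel
    linear_combination hC' + k * h4 - y * hD'

/-! ### the classes -/

/-- The classes of `c/d` modulo `11`. -/
private inductive K
  | ki
  | k0
  | k1
  | k2
  | k3
  | k4
  | k5
  | k6
  | k7
  | k8
  | k9
  | k10

private def p1 : K → ℤ
  | .ki => 0
  | .k0 => 1
  | .k1 => 1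
  | .k2 => 1
  | .k3 => 1
  | .k4 => 1
  | .k5 => 0
  | .k6 => 1
  | .k7 => 0
  | .k8 => 1
  | .k9 => 1
  | .k10 => 0

private def p2 : K → ℤ
  | .ki => -1
  | .k0 => 0
  | .k1 => 0
  | .k2 => 0
  | .k3 => 0
  | .k4 => -1
  | .k5 => -1
  | .k6 => 1
  | .k7 => -1
  | .k8 => 1
  | .k9 => -1
  | .k10 => -1

private def p3 : K → ℤ
  | .ki => 1
  | .k0 => 0
  | .k1 => 1
  | .k2 => 2
  | .k3 => 3
  | .k4 => 3
  | .k5 => 1
  | .k6 => 1
  | .k7 => 1
  | .k8 => 2
  | .k9 => 2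
  | .k10 => 1

private def p4 : K → ℤ
  | .ki => 0
  | .k0 => 1
  | .k1 => 1
  | .k2 => 1
  | .k3 => 1
  | .k4 => -2
  | .k5 => -2
  | .k6 => 2
  | .k7 => -3
  | .k8 => 3
  | .k9 => -1
  | .k10 => -1

private theorem e0 (t : K) : p1 t * p4 t - p2 t * p3 t = 1 := by
  cases t <;> rfl

private theorem cls1 : ∀ c d : ZMod 11, c * 0 - d * 1 = 0 ∨
    c * 1 - d * 0 = 0 ∨
    c * 1 - d * 1 = 0 ∨
    c * 1 - d * 2 = 0 ∨
    c * 1 - d * 3 = 0 ∨
    c * 9 - d * 3 = 0 ∨
    c * 9 - d * 1 = 0 ∨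
    c * 2 - d * 1 = 0 ∨
    c * 8 - d * 1 = 0 ∨
    c * 3 - d * 2 = 0 ∨
    c * 10 - d * 2 = 0 ∨
    c * 10 - d * 1 = 0 := by
  decide

private theorem e11d : ∀ z : ℤ, ((z : ℤ) : ZMod 11) = 0 → (11 : ℤ) ∣ z := fun z hz =>
  (ZMod.intCast_zmod_eq_zero_iff_dvd z 11).1 hz

private theorem ex (c d : ℤ) : ∃ t : K, (11 : ℤ) ∣ c * p4 t - d * p3 t := by
  rcases cls1 c d with q | q | q | q | q | q | q | q | q | q | q | q
  · have := e11d (c * 0 - d * 1) (by push_cast; exact q)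
    exact ⟨.ki, by simp only [p4, p3]; omega⟩
  · have := e11d (c * 1 - d * 0) (by push_cast; exact q)
    exact ⟨.k0, by simp only [p4, p3]; omega⟩
  · have := e11d (c * 1 - d * 1) (by push_cast; exact q)
    exact ⟨.k1, by simp only [p4, p3]; omega⟩
  · have := e11d (c * 1 - d * 2) (by push_cast; exact q)
    exact ⟨.k2, by simp only [p4, p3]; omega⟩
  · have := e11d (c * 1 - d * 3) (by push_cast; exact q)
    exact ⟨.k3, by simp only [p4, p3]; omega⟩
  · have := e11d (c * 9 - d * 3) (by push_cast; exact q)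
    exact ⟨.k4, by simp only [p4, p3]; omega⟩
  · have := e11d (c * 9 - d * 1) (by push_cast; exact q)
    exact ⟨.k5, by simp only [p4, p3]; omega⟩
  · have := e11d (c * 2 - d * 1) (by push_cast; exact q)
    exact ⟨.k6, by simp only [p4, p3]; omega⟩
  · have := e11d (c * 8 - d * 1) (by push_cast; exact q)
    exact ⟨.k7, by simp only [p4, p3]; omega⟩
  · have := e11d (c * 3 - d * 2) (by push_cast; exact q)
    exact ⟨.k8, by simp only [p4, p3]; omega⟩
  · have := e11d (c * 10 - d * 2) (by push_cast; exact q)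
    exact ⟨.k9, by simp only [p4, p3]; omega⟩
  · have := e11d (c * 10 - d * 1) (by push_cast; exact q)
    exact ⟨.k10, by simp only [p4, p3]; omega⟩

private theorem uniq {c d : ℤ} (h : ¬ ((11 : ℤ) ∣ c ∧ (11 : ℤ) ∣ d)) {t t' : K}
    (h1 : (11 : ℤ) ∣ c * p4 t - d * p3 t) (h2 : (11 : ℤ) ∣ c * p4 t' - d * p3 t') : t = t' := by
  cases t <;> cases t' <;>
    first | rfl | (exfalso; simp only [p4, p3] at h1 h2; apply h; constructor <;> omega)

private noncomputable def T (c d : ℤ) : K := Classical.choose (ex c d)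

private theorem T_spec (c d : ℤ) : (11 : ℤ) ∣ c * p4 (T c d) - d * p3 (T c d) :=
  Classical.choose_spec (ex c d)

section

variable {R : Type} {r s : ℕ}

private noncomputable def W (w : K → ZMod (11 ^ r) → ZMod (11 ^ s) → R) (a b c d : ℤ) : R :=
  w (T c d) (PX r (a * p4 (T c d) - b * p3 (T c d)) (-a * p2 (T c d) + b * p1 (T c d)))
    (PX s (-c * p2 (T c d) + d * p1 (T c d)) ((c * p4 (T c d) - d * p3 (T c d)) / 11))

/-- The value at the product `(a b; c d) (p q; r s)`. -/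
private def mW (V : ℤ → ℤ → ℤ → ℤ → R) (a b c d p q r s : ℤ) : R :=
  V (a * p + b * r) (a * q + b * s) (c * p + d * r) (c * q + d * s)

/-- The matrix has class `t` and coordinates `(x, y)`. -/
private def Rp (a b c d : ℤ) (t : K) (x : ZMod (11 ^ r)) (y : ZMod (11 ^ s)) : Prop :=
  ∃ c' : ℤ, c * p4 t - d * p3 t = 11 * c' ∧
    Pt (a * p4 t - b * p3 t) (-a * p2 t + b * p1 t) c' (-c * p2 t + d * p1 t) x y

variable {w : K → ZMod (11 ^ r) → ZMod (11 ^ s) → R}

private theorem evI {a b c d : ℤ} {t : K} {x : ZMod (11 ^ r)} {y : ZMod (11 ^ s)}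
    (h : Rp a b c d t x y) : W w a b c d = w t x y := by
  obtain ⟨c', e, h1, h2, h3, h4⟩ := h
  have hT : T c d = t := uniq (by
    rintro ⟨⟨u, rfl⟩, ⟨v, rfl⟩⟩
    exact h2 ⟨-u * p2 t + v * p1 t, by ring⟩) (T_spec c d) ⟨c', e⟩
  unfold W
  rw [hT, px_eq rfl rfl h1 h3, px_eq rfl (by rw [e]; omega) h2 h4]

private theorem rp_of (r s : ℕ) {a b c d : ℤ} (h : a * d - b * c = 1) (t : K)
    (ht : (11 : ℤ) ∣ c * p4 t - d * p3 t) :
    ∃ (x : ZMod (11 ^ r)) (y : ZMod (11 ^ s)), Rp a b c d t x y := by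
  obtain ⟨c', e⟩ := ht
  have hr := res (a := a * p4 t - b * p3 t) (b := -a * p2 t + b * p1 t) (c := c')
    (d := -c * p2 t + d * p1 t) (by
      have : (a * p4 t - b * p3 t) * (-c * p2 t + d * p1 t) - 11 * ((-a * p2 t + b * p1 t) * c') =
          1 := by
        linear_combination (a * d - b * c) * e0 t + (-a * p2 t + b * p1 t) * e + h
      rw [this]
      decide)
  obtain ⟨x, y, hp⟩ := pt_mk r s (b := -a * p2 t + b * p1 t) (c := c') hr.1 hr.2
  exact ⟨x, y, c', e, hp⟩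

private theorem rep (r s : ℕ) {a b c d : ℤ} (h : a * d - b * c = 1) :
    ∃ (t : K) (x : ZMod (11 ^ r)) (y : ZMod (11 ^ s)), Rp a b c d t x y := by
  obtain ⟨t, ht⟩ := ex c d
  exact ⟨t, rp_of r s h t ht⟩

private theorem W_scale {a b c d : ℤ} (h : a * d - b * c = 1) (k : ℤ)
    (hk : ¬ (11 : ℤ) ∣ k) {A B C D : ℤ} (hA : A = k * a) (hB : B = k * b) (hC : C = k * c)
    (hD : D = k * d) : W w A B C D = W w a b c d := by
  obtain ⟨t, x, y, c', e, hp⟩ := rep r s h
  rw [evI ⟨c', e, hp⟩]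
  subst hA hB hC hD
  exact evI ⟨k * c', by linear_combination k * e,
    pt_scale hp hk (by ring) (by ring) rfl (by ring)⟩

private theorem W_left {a b c d α β γ δ A B C D : ℤ} (h : a * d - b * c = 1)
    (hα : ¬ (11 : ℤ) ∣ α) (hδ : ¬ (11 : ℤ) ∣ δ)
    (hA : A = α * a + 11 ^ r * β * c) (hB : B = α * b + 11 ^ r * β * d)
    (hC : C = 11 ^ (s + 1) * γ * a + δ * c) (hD : D = 11 ^ (s + 1) * γ * b + δ * d) :
    W w A B C D = W w a b c d := by
  obtain ⟨t, x, y, c', e, hp⟩ := rep r s h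
  rw [evI ⟨c', e, hp⟩]
  subst hA hB hC hD
  exact evI ⟨11 ^ s * γ * (a * p4 t - b * p3 t) + δ * c', by linear_combination δ * e,
    pt_left (α := α) (β := β) (γ := γ) (δ := δ) hp hα hδ
      (by linear_combination (11 ^ r * β) * e) (by ring) rfl (by ring)⟩

private theorem ev {a b c d : ℤ} {x : ZMod (11 ^ r)} {y : ZMod (11 ^ s)} (hp : Pt a b c d x y)
    (t : K) {m k A B C D : ℤ} (hm : ¬ (11 : ℤ) ∣ m) (hk : ¬ (11 : ℤ) ∣ k)
    (hA : m * A = k * (a * p1 t + b * p3 t)) (hB : m * B = k * (a * p2 t + b * p4 t))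
    (hC : m * C = k * (11 * c * p1 t + d * p3 t)) (hD : m * D = k * (11 * c * p2 t + d * p4 t)) :
    W w A B C D = w t x y := by
  have hc : m * (C * p4 t - D * p3 t) = 11 * (k * c) := by
    linear_combination p4 t * hC - p3 t * hD + 11 * k * c * e0 t
  have h5 : (11 : ℤ) ∣ C * p4 t - D * p3 t := by
    rcases (Int.prime_ofNat_iff.2 (by norm_num : Nat.Prime 11)).dvd_or_dvd
      (⟨k * c, hc⟩ : (11 : ℤ) ∣ m * (C * p4 t - D * p3 t)) with h | h
    · exact absurd h hm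
    · exact h
  obtain ⟨c', e⟩ := h5
  refine evI ⟨c', e, pt_sc hp hm hk ?_ ?_ ?_ ?_⟩
  · linear_combination p4 t * hA - p3 t * hB + k * a * e0 t
  · linear_combination (-p2 t) * hA + p1 t * hB + k * b * e0 t
  · have : (11 : ℤ) * (m * c') = 11 * (k * c) := by
      rw [← hc, e]
      ring
    exact mul_left_cancel₀ (by norm_num) this
  · linear_combination (-p2 t) * hC + p1 t * hD + k * d * e0 t

private theorem evM {a b c d : ℤ} {t : K} {x : ZMod (11 ^ r)} {y : ZMod (11 ^ s)}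
    (h : Rp a b c d t x y) (t' : K) (M11 M12 M21 M22 α β γ δ k0 : ℤ)
    (hk : ¬ (11 : ℤ) ∣ k0) (hα : ¬ (11 : ℤ) ∣ α) (hδ : ¬ (11 : ℤ) ∣ δ)
    (n1 : p1 t * M11 + p2 t * M21 = k0 * (α * p1 t' + β * p3 t'))
    (n2 : p1 t * M12 + p2 t * M22 = k0 * (α * p2 t' + β * p4 t'))
    (n3 : p3 t * M11 + p4 t * M21 = k0 * (11 * γ * p1 t' + δ * p3 t'))
    (n4 : p3 t * M12 + p4 t * M22 = k0 * (11 * γ * p2 t' + δ * p4 t')) :
    mW (W w) a b c d M11 M12 M21 M22 = tr11 α β γ δ (w t') x y := by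
  obtain ⟨c', e, hp⟩ := h
  have hp' := pt_mul hp (α := α) (β := β) (γ := γ) (δ := δ) hα hδ
  unfold mW tr11
  refine ev hp' t' (m := 1) (k := k0) (by decide) hk ?_ ?_ ?_ ?_
  · linear_combination (a * p4 t - b * p3 t) * n1 + (-a * p2 t + b * p1 t) * n3 -
      (a * M11 + b * M21) * e0 t
  · linear_combination (a * p4 t - b * p3 t) * n2 + (-a * p2 t + b * p1 t) * n4 -
      (a * M12 + b * M22) * e0 t
  · linear_combination (11 * c') * n1 + (-c * p2 t + d * p1 t) * n3 -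
      (c * M11 + d * M21) * e0 t + (p1 t * M11 + p2 t * M21) * e
  · linear_combination (11 * c') * n2 + (-c * p2 t + d * p1 t) * n4 -
      (c * M12 + d * M22) * e0 t + (p1 t * M12 + p2 t * M22) * e

private theorem evM1 {a b c d : ℤ} {t : K} {x : ZMod (11 ^ r)} {y : ZMod (11 ^ s)}
    (h : Rp a b c d t x y) (t' : K) (M11 M12 M21 M22 k0 : ℤ) (hk : ¬ (11 : ℤ) ∣ k0)
    (n1 : p1 t * M11 + p2 t * M21 = k0 * p1 t')
    (n2 : p1 t * M12 + p2 t * M22 = k0 * p2 t')
    (n3 : p3 t * M11 + p4 t * M21 = k0 * p3 t')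
    (n4 : p3 t * M12 + p4 t * M22 = k0 * p4 t') :
    mW (W w) a b c d M11 M12 M21 M22 = w t' x y := by
  obtain ⟨c', e, hp⟩ := h
  unfold mW
  refine ev hp t' (m := 1) (k := k0) (by decide) hk ?_ ?_ ?_ ?_
  · linear_combination (a * p4 t - b * p3 t) * n1 + (-a * p2 t + b * p1 t) * n3 -
      (a * M11 + b * M21) * e0 t
  · linear_combination (a * p4 t - b * p3 t) * n2 + (-a * p2 t + b * p1 t) * n4 -
      (a * M12 + b * M22) * e0 t
  · linear_combination (11 * c') * n1 + (-c * p2 t + d * p1 t) * n3 -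
      (c * M11 + d * M21) * e0 t + (p1 t * M11 + p2 t * M21) * e
  · linear_combination (11 * c') * n2 + (-c * p2 t + d * p1 t) * n4 -
      (c * M12 + d * M22) * e0 t + (p1 t * M12 + p2 t * M22) * e

end

/-! ### the table -/

section

variable {R : Type} [AddCommGroup R] {r s : ℕ}

private noncomputable def vT (F : Fin 3 → ZMod (11 ^ r) → ZMod (11 ^ s) → R) :
    K → ZMod (11 ^ r) → ZMod (11 ^ s) → R
  | .ki => fun x y => -(F 0 x y)
  | .k0 => fun x y => F 0 x y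
  | .k1 => fun x y => F 0 x y - tr11 1 1 0 1 (F 0) x y
  | .k2 => fun x y => F 1 x y + F 2 x y
  | .k3 => fun x y => F 1 x y
  | .k4 => fun x y => -(F 2 x y)
  | .k5 => fun x y => -(F 1 x y + F 2 x y)
  | .k6 => fun x y => -tr11 7 (-2) 1 (-3) (F 1) x y - tr11 8 (-3) 1 (-4) (F 2) x y
  | .k7 => fun x y => -(F 1 x y)
  | .k8 => fun x y => F 2 x y
  | .k9 => fun x y => -(-tr11 7 (-2) 1 (-3) (F 1) x y - tr11 8 (-3) 1 (-4) (F 2) x y)
  | .k10 => fun x y => -(F 0 x y - tr11 1 1 0 1 (F 0) x y)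

variable {F : Fin 3 → ZMod (11 ^ r) → ZMod (11 ^ s) → R}

private theorem ee_neg {a b c d : ℤ} (h : a * d - b * c = 1) :
    W (vT F) (-a) (-b) (-c) (-d) = W (vT F) a b c d :=
  W_scale h (-1) (by decide) (by ring) (by ring) (by ring) (by ring)

private theorem ee_S {a b c d : ℤ} (h : a * d - b * c = 1) :
    W (vT F) b (-a) d (-c) = -W (vT F) a b c d := by
  have h1 : mW (W (vT F)) a b c d 0 (-1) 1 0 = W (vT F) b (-a) d (-c) := by
    unfold mW
    congr 1 <;> ring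
  rw [← h1]
  obtain ⟨t, x, y, hr⟩ := rep r s h
  cases t
  · rw [evI hr, evM1 hr .k0 0 (-1) 1 0 (-1) (by decide) (by decide) (by decide) (by decide)
      (by decide)]
    simp only [vT, neg_neg]
  · rw [evI hr, evM1 hr .ki 0 (-1) 1 0 1 (by decide) (by decide) (by decide) (by decide)
      (by decide)]
    simp only [vT, neg_neg]
  · rw [evI hr, evM1 hr .k10 0 (-1) 1 0 1 (by decide) (by decide) (by decide) (by decide)
      (by decide)]
    simp only [vT, neg_neg]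
  · rw [evI hr, evM1 hr .k5 0 (-1) 1 0 1 (by decide) (by decide) (by decide) (by decide)
      (by decide)]
    simp only [vT, neg_neg]
  · rw [evI hr, evM1 hr .k7 0 (-1) 1 0 1 (by decide) (by decide) (by decide) (by decide)
      (by decide)]
    simp only [vT, neg_neg]
  · rw [evI hr, evM1 hr .k8 0 (-1) 1 0 (-1) (by decide) (by decide) (by decide) (by decide)
      (by decide)]
    simp only [vT, neg_neg]
  · rw [evI hr, evM1 hr .k2 0 (-1) 1 0 (-1) (by decide) (by decide) (by decide) (by decide)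
      (by decide)]
    simp only [vT, neg_neg]
  · rw [evI hr, evM1 hr .k9 0 (-1) 1 0 1 (by decide) (by decide) (by decide) (by decide)
      (by decide)]
    simp only [vT, neg_neg]
  · rw [evI hr, evM1 hr .k3 0 (-1) 1 0 (-1) (by decide) (by decide) (by decide) (by decide)
      (by decide)]
    simp only [vT, neg_neg]
  · rw [evI hr, evM1 hr .k4 0 (-1) 1 0 1 (by decide) (by decide) (by decide) (by decide)
      (by decide)]
    simp only [vT, neg_neg]
  · rw [evI hr, evM1 hr .k6 0 (-1) 1 0 (-1) (by decide) (by decide) (by decide) (by decide)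
      (by decide)]
    simp only [vT, neg_neg]
  · rw [evI hr, evM1 hr .k1 0 (-1) 1 0 (-1) (by decide) (by decide) (by decide) (by decide)
      (by decide)]
    simp only [vT, neg_neg]

private def Tri (F : Fin 3 → ZMod (11 ^ r) → ZMod (11 ^ s) → R) (a b c d : ℤ) : Prop :=
  W (vT F) a b c d = W (vT F) a (a + b) c (c + d) + W (vT F) (a + b) b (c + d) d

private theorem tri_rot {a b c d : ℤ} (h : a * d - b * c = 1)
    (ht : Tri F (a + b) (-a) (c + d) (-c)) : Tri F a b c d := by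
  unfold Tri at ht ⊢
  have e1 : a + b + -a = b := by ring
  have e2 : c + d + -c = d := by ring
  rw [e1, e2, ee_S h, ee_S (a := a) (b := a + b) (c := c) (d := c + d)
    (by linear_combination h)] at ht
  rw [eq_add_neg_iff_add_eq] at ht
  rw [← ht]
  abel

private theorem tri_of {a b c d : ℤ}
    (h : W (vT F) a b c d = mW (W (vT F)) a b c d 1 1 0 1 + mW (W (vT F)) a b c d 1 0 1 1) :
    Tri F a b c d := by
  unfold Tri
  have h1 : mW (W (vT F)) a b c d 1 1 0 1 = W (vT F) a (a + b) c (c + d) := by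
    unfold mW
    congr 1 <;> ring
  have h2 : mW (W (vT F)) a b c d 1 0 1 1 = W (vT F) (a + b) b (c + d) d := by
    unfold mW
    congr 1 <;> ring
  rw [← h1, ← h2]
  exact h

private theorem tri_0 (hR : Rel11 F) {a b c d : ℤ} (h : a * d - b * c = 1)
    (hc : (11 : ℤ) ∣ c * p4 .k0 - d * p3 .k0) : Tri F a b c d := by
  obtain ⟨x, y, hr⟩ := rp_of r s h .k0 hc
  have hR1 := hR x y
  apply tri_of
  rw [evI hr, evM hr .k0 1 1 0 1 1 1 0 1 1 (by decide) (by decide) (by decide)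
      (by decide) (by decide) (by decide) (by decide),
    evM1 hr .k1 1 0 1 1 1 (by decide) (by decide) (by decide) (by decide)
      (by decide)]
  simp only [vT, tr11]
  abel

private theorem tri_1 (hR : Rel11 F) {a b c d : ℤ} (h : a * d - b * c = 1)
    (hc : (11 : ℤ) ∣ c * p4 .k1 - d * p3 .k1) : Tri F a b c d := by
  obtain ⟨x, y, hr⟩ := rp_of r s h .k1 hc
  have hR1 := hR x y
  apply tri_of
  rw [evI hr, evM1 hr .k6 1 1 0 1 1 (by decide) (by decide) (by decide) (by decide)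
      (by decide),
    evM1 hr .k2 1 0 1 1 1 (by decide) (by decide) (by decide) (by decide)
      (by decide)]
  unfold Df11 at hR1
  simp only [vT]
  rw [← sub_eq_zero, ← hR1]
  abel

private theorem tri_2 (hR : Rel11 F) {a b c d : ℤ} (h : a * d - b * c = 1)
    (hc : (11 : ℤ) ∣ c * p4 .k2 - d * p3 .k2) : Tri F a b c d := by
  obtain ⟨x, y, hr⟩ := rp_of r s h .k2 hc
  have hR1 := hR x y
  apply tri_of
  rw [evI hr, evM1 hr .k8 1 1 0 1 1 (by decide) (by decide) (by decide) (by decide)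
      (by decide),
    evM1 hr .k3 1 0 1 1 1 (by decide) (by decide) (by decide) (by decide)
      (by decide)]
  simp only [vT]
  abel

private theorem tri_6 (hR : Rel11 F) {a b c d : ℤ} (h : a * d - b * c = 1)
    (hc : (11 : ℤ) ∣ c * p4 .k6 - d * p3 .k6) : Tri F a b c d := by
  obtain ⟨x, y, hr⟩ := rp_of r s h .k6 hc
  have hR1 := hR x y
  apply tri_of
  rw [evI hr, evM hr .k4 1 1 0 1 8 (-3) 1 (-4) (-1) (by decide) (by decide) (by decide)
      (by decide) (by decide) (by decide) (by decide),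
    evM hr .k7 1 0 1 1 7 (-2) 1 (-3) (-1) (by decide) (by decide) (by decide)
      (by decide) (by decide) (by decide) (by decide)]
  simp only [vT, tr11]
  abel

private theorem tri_all (hR : Rel11 F) {a b c d : ℤ} (h : a * d - b * c = 1) :
    Tri F a b c d := by
  obtain ⟨t, ht⟩ := ex c d
  cases t
  · exact tri_rot h (tri_rot (by linear_combination h)
      (tri_0 hR (by linear_combination h) (by simp only [p4, p3] at ht ⊢; omega)))
  · exact tri_0 hR h ht
  · exact tri_1 hR h ht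
  · exact tri_2 hR h ht
  · exact tri_rot h (tri_6 hR (by linear_combination h) (by simp only [p4, p3] at ht ⊢; omega))
  · exact tri_rot h (tri_rot (by linear_combination h)
      (tri_2 hR (by linear_combination h) (by simp only [p4, p3] at ht ⊢; omega)))
  · exact tri_rot h (tri_1 hR (by linear_combination h) (by simp only [p4, p3] at ht ⊢; omega))
  · exact tri_6 hR h ht
  · exact tri_rot h (tri_2 hR (by linear_combination h) (by simp only [p4, p3] at ht ⊢; omega))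
  · exact tri_rot h (tri_rot (by linear_combination h)
      (tri_6 hR (by linear_combination h) (by simp only [p4, p3] at ht ⊢; omega)))
  · exact tri_rot h (tri_rot (by linear_combination h)
      (tri_1 hR (by linear_combination h) (by simp only [p4, p3] at ht ⊢; omega)))
  · exact tri_rot h (tri_0 hR (by linear_combination h) (by simp only [p4, p3] at ht ⊢; omega))

end

/-- Module Ex. -/
theorem hEx (_hm : S11Trm) (ha : S11PlA) (_he : S11Edg) (hfex : Pool.Agent.Helper14.CV.StFex)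
    (hfar : Pool.Agent.Helper14.CV.StFar) : S11Ex := by
  intro R _ r s F hR
  obtain ⟨G, hGh, hG⟩ := hfex R inferInstance (W (vT F)) (fun a b c d h =>
    ⟨ee_neg h, ee_S h, tri_all hR h⟩)
  refine ⟨G, ⟨hGh, ?_⟩, ?_⟩
  · intro α β' γ' δ hdet hβ hγ
    obtain ⟨β, rfl⟩ := hβ
    obtain ⟨γ, rfl⟩ := hγ
    have hdet' : α * δ - 11 ^ r * β * (11 ^ (s + 1) * γ) = 1 := by exact_mod_cast hdet
    have hdet0 : α * δ - 11 ^ r * β * (11 ^ (s + 1) * γ) ≠ 0 := by
      rw [hdet']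
      exact one_ne_zero
    have hr := res (a := α) (b := 11 ^ r * β) (c := 11 ^ s * γ) (d := δ) (by
      have : α * δ - 11 * (11 ^ r * β * (11 ^ s * γ)) = 1 := by
        rw [← hdet']
        ring
      rw [this]
      decide)
    have hH : Homog (act α (11 ^ r * β) (11 ^ (s + 1) * γ) δ G - G) := by
      rw [sub_eq_add_neg]
      exact (hGh.act hdet0).add hGh.neg
    obtain ⟨k, hk⟩ := hfar R inferInstance _ hH (by
      intro a b c d h
      have h1 := hG a b c d h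
      have h2 := hG (α * a + 11 ^ r * β * c) (α * b + 11 ^ r * β * d)
        (11 ^ (s + 1) * γ * a + δ * c) (11 ^ (s + 1) * γ * b + δ * d)
        (by linear_combination (a * d - b * c) * hdet' + h)
      rw [W_left h hr.1 hr.2 rfl rfl rfl rfl, ← h1] at h2
      show G (α * a + 11 ^ r * β * c) (11 ^ (s + 1) * γ * a + δ * c) - G a c =
        G (α * b + 11 ^ r * β * d) (11 ^ (s + 1) * γ * b + δ * d) - G b d
      have h3 := sub_eq_iff_eq_add.1 h2
      rw [h3]
      abel)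
    refine ⟨k, fun p q hpq => ?_⟩
    have h4 := hk p q hpq
    have h5 : act α (11 ^ r * β) (11 ^ (s + 1) * γ) δ G p q - G p q = k := by
      have h6 : (0 : ℤ → ℤ → R) p q = 0 := rfl
      rw [h6, zero_add] at h4
      exact h4
    have h7 := (sub_eq_iff_eq_add.1 h5).trans (add_comm _ _)
    exact_mod_cast h7
  · intro i
    funext x y
    obtain ⟨hp1, hp2, hp3⟩ := ha 0 r s x y
    have hr := res (a := 1) (b := (x.val : ℤ)) (c := rY11 0 x y)
      (d := 1 + 11 ^ (0 + 1) * (x.val : ℤ) * rY11 0 x y) (by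
        have : (1 : ℤ) * (1 + 11 ^ (0 + 1) * (x.val : ℤ) * rY11 0 x y) -
            11 * ((x.val : ℤ) * rY11 0 x y) = 1 := by ring
        rw [this]
        decide)
    have hpt : Pt (1 : ℤ) (x.val : ℤ) (rY11 0 x y) (1 + 11 ^ (0 + 1) * (x.val : ℤ) * rY11 0 x y)
        x y := ⟨hr.1, hr.2, hp2, hp3⟩
    have e : ∀ (t : K) (u1 u2 v1 v2 : ℤ), p1 t = u1 → p2 t = v1 → p3 t = u2 → p4 t = v2 →
        edge11 0 u1 u2 v1 v2 G x y = vT F t x y := by
      intro t u1 u2 v1 v2 q1 q2 q3 q4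
      subst q1 q2 q3 q4
      rw [← ev (w := vT F) (m := 1) (k := 1) (A := p1 t + 11 ^ 0 * (x.val : ℤ) * p3 t)
        (B := p2 t + 11 ^ 0 * (x.val : ℤ) * p4 t)
        (C := 11 * rY11 0 x y * p1 t + (1 + 11 ^ (0 + 1) * (x.val : ℤ) * rY11 0 x y) * p3 t)
        (D := 11 * rY11 0 x y * p2 t + (1 + 11 ^ (0 + 1) * (x.val : ℤ) * rY11 0 x y) * p4 t)
        hpt t (by decide) (by decide) (by ring) (by ring) (by ring) (by ring)]
      rw [← hG _ _ _ _ ?_]
      · rfl
      · linear_combination e0 t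
    fin_cases i
    · exact e .k0 1 0 0 1 rfl rfl rfl rfl
    · exact e .k3 1 3 0 1 rfl rfl rfl rfl
    · exact e .k8 1 2 1 3 rfl rfl rfl rfl

end Pool.Agent.Helper2.P11
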