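import Pool.Agent.Helper2.P11.StP

/-! # Project P11 (levels `11^n`): modules Rel and Uni (the plane functions of a symbol) -/

set_option autoImplicit false

namespace Pool.Agent.Helper2.P11

open Pool.Agent.Helper14.CV (Homog EqC act Tl StFar StFex)
open Pool.Agent.Helper28.WK (SymP Tw evw Ok)
open Pool.Agent.Helper84.P11 (Pl11 rY11 edge11 tr11 Fn11 S11PlA S11PlU S11Edg S11Trm S11Tre)

/-- The value of the symbol at the point `g u`. -/
private noncomputable def ph {R : Type} {q q' : ℕ} (G : ℤ → ℤ → R) (x : ZMod q) (y : ZMod q')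
    (u1 u2 : ℤ) : R :=
  G (u1 + 11 ^ 0 * (x.val : ℤ) * u2)
    (11 * rY11 0 x y * u1 + (1 + 11 ^ (0 + 1) * (x.val : ℤ) * rY11 0 x y) * u2)

private theorem edge_ph {R : Type} [AddCommGroup R] {q q' : ℕ} (G : ℤ → ℤ → R) (x : ZMod q)
    (y : ZMod q') (u1 u2 v1 v2 : ℤ) :
    edge11 0 u1 u2 v1 v2 G x y = ph G x y u1 u2 - ph G x y v1 v2 := rfl

private theorem ph_neg {R : Type} {q q' : ℕ} {G : ℤ → ℤ → R} (hG : Homog G)
    (x : ZMod q) (y : ZMod q') {u1 u2 : ℤ} (h : u1 ≠ 0 ∨ u2 ≠ 0) :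
    ph G x y (-u1) (-u2) = ph G x y u1 u2 := by
  unfold ph
  have key : u1 + 11 ^ 0 * (x.val : ℤ) * u2 ≠ 0 ∨
      11 * rY11 0 x y * u1 + (1 + 11 ^ (0 + 1) * (x.val : ℤ) * rY11 0 x y) * u2 ≠ 0 := by
    by_contra hh
    rw [not_or, not_not, not_not] at hh
    obtain ⟨h1, h2⟩ := hh
    have h4 : u2 = 0 := by linear_combination h2 - 11 * rY11 0 x y * h1
    have h3 : u1 = 0 := by linear_combination h1 - 11 ^ 0 * (x.val : ℤ) * h4
    rcases h with h | h
    · exact h h3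
    · exact h h4
  rw [← hG (-1) _ _ (by decide) key]
  congr 1 <;> ring

/-- Module Rel. -/
theorem hRel (ht : S11Tre) : S11Rel := by
  intro R _ r s G hS x y
  have hG := hS.1
  have t0 := ht R inferInstance r s G hS 1 1 0 1 1 0 0 1 (by norm_num) (by decide) (by decide) x y
  have t1 := ht R inferInstance r s G hS 7 (-2) 1 (-3) 1 3 0 1 (by norm_num) (by decide)
    (by decide) x y
  have t2 := ht R inferInstance r s G hS 8 (-3) 1 (-4) 1 2 1 3 (by norm_num) (by decide)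
    (by decide) x y
  unfold Df11
  have p0 : ∀ z w, pf11 G 0 (z : ZMod (11 ^ r)) (w : ZMod (11 ^ s)) =
      edge11 0 1 0 0 1 G z w := fun _ _ => rfl
  have p1 : ∀ z w, pf11 G 1 (z : ZMod (11 ^ r)) (w : ZMod (11 ^ s)) =
      edge11 0 1 3 0 1 G z w := fun _ _ => rfl
  have p2 : ∀ z w, pf11 G 2 (z : ZMod (11 ^ r)) (w : ZMod (11 ^ s)) =
      edge11 0 1 2 1 3 G z w := fun _ _ => rfl
  have q0 : tr11 1 1 0 1 (pf11 G 0 : ZMod (11 ^ r) → ZMod (11 ^ s) → R) x y =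
      tr11 1 1 0 1 (edge11 0 1 0 0 1 G) x y := rfl
  have q1 : tr11 7 (-2) 1 (-3) (pf11 G 1 : ZMod (11 ^ r) → ZMod (11 ^ s) → R) x y =
      tr11 7 (-2) 1 (-3) (edge11 0 1 3 0 1 G) x y := rfl
  have q2 : tr11 8 (-3) 1 (-4) (pf11 G 2 : ZMod (11 ^ r) → ZMod (11 ^ s) → R) x y =
      tr11 8 (-3) 1 (-4) (edge11 0 1 2 1 3 G) x y := rfl
  show pf11 G 0 x y - tr11 1 1 0 1 (pf11 G 0) x y -
    (pf11 G 1 x y - tr11 7 (-2) 1 (-3) (pf11 G 1) x y) -
    (pf11 G 2 x y - tr11 8 (-3) 1 (-4) (pf11 G 2) x y) = 0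
  rw [q0, q1, q2, p0, p1, p2, ← t0, ← t1, ← t2]
  simp only [edge_ph]
  norm_num only
  have n1 := ph_neg hG x y (u1 := 2) (u2 := 3) (by decide)
  have n2 := ph_neg hG x y (u1 := 1) (u2 := 1) (by decide)
  rw [n1, n2]
  abel

/-! ### the classes -/

/-- The classes of `c/d` modulo `11`. -/
private inductive K
  | ki
  | k0
  | k1
  | k2
  | k3
  | k4
  | k5
  | k6
  | k7
  | k8
  | k9
  | k10

private def p1 : K → ℤ
  | .ki => 0
  | .k0 => 1
  | .k1 => 1
  | .k2 => 1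
  | .k3 => 1
  | .k4 => 1
  | .k5 => 0
  | .k6 => 1
  | .k7 => 0
  | .k8 => 1
  | .k9 => 1
  | .k10 => 0

private def p2 : K → ℤ
  | .ki => -1
  | .k0 => 0
  | .k1 => 0
  | .k2 => 0
  | .k3 => 0
  | .k4 => -1
  | .k5 => -1
  | .k6 => 1
  | .k7 => -1
  | .k8 => 1
  | .k9 => -1
  | .k10 => -1

private def p3 : K → ℤ
  | .ki => 1
  | .k0 => 0
  | .k1 => 1
  | .k2 => 2
  | .k3 => 3
  | .k4 => 3
  | .k5 => 1
  | .k6 => 1
  | .k7 => 1
  | .k8 => 2
  | .k9 => 2
  | .k10 => 1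

private def p4 : K → ℤ
  | .ki => 0
  | .k0 => 1
  | .k1 => 1
  | .k2 => 1
  | .k3 => 1
  | .k4 => -2
  | .k5 => -2
  | .k6 => 2
  | .k7 => -3
  | .k8 => 3
  | .k9 => -1
  | .k10 => -1

private theorem e0 (t : K) : p1 t * p4 t - p2 t * p3 t = 1 := by
  cases t <;> rfl

private theorem cls1 : ∀ c d : ZMod 11, c * 0 - d * 1 = 0 ∨
    c * 1 - d * 0 = 0 ∨
    c * 1 - d * 1 = 0 ∨
    c * 1 - d * 2 = 0 ∨
    c * 1 - d * 3 = 0 ∨
    c * 9 - d * 3 = 0 ∨
    c * 9 - d * 1 = 0 ∨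
    c * 2 - d * 1 = 0 ∨
    c * 8 - d * 1 = 0 ∨
    c * 3 - d * 2 = 0 ∨
    c * 10 - d * 2 = 0 ∨
    c * 10 - d * 1 = 0 := by
  decide

private theorem e11d : ∀ z : ℤ, ((z : ℤ) : ZMod 11) = 0 → (11 : ℤ) ∣ z := fun z hz =>
  (ZMod.intCast_zmod_eq_zero_iff_dvd z 11).1 hz

private theorem ex (c d : ℤ) : ∃ t : K, (11 : ℤ) ∣ c * p4 t - d * p3 t := by
  rcases cls1 c d with q | q | q | q | q | q | q | q | q | q | q | q
  · have := e11d (c * 0 - d * 1) (by push_cast; exact q)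
    exact ⟨.ki, by simp only [p4, p3]; omega⟩
  · have := e11d (c * 1 - d * 0) (by push_cast; exact q)
    exact ⟨.k0, by simp only [p4, p3]; omega⟩
  · have := e11d (c * 1 - d * 1) (by push_cast; exact q)
    exact ⟨.k1, by simp only [p4, p3]; omega⟩
  · have := e11d (c * 1 - d * 2) (by push_cast; exact q)
    exact ⟨.k2, by simp only [p4, p3]; omega⟩
  · have := e11d (c * 1 - d * 3) (by push_cast; exact q)
    exact ⟨.k3, by simp only [p4, p3]; omega⟩
  · have := e11d (c * 9 - d * 3) (by push_cast; exact q)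
    exact ⟨.k4, by simp only [p4, p3]; omega⟩
  · have := e11d (c * 9 - d * 1) (by push_cast; exact q)
    exact ⟨.k5, by simp only [p4, p3]; omega⟩
  · have := e11d (c * 2 - d * 1) (by push_cast; exact q)
    exact ⟨.k6, by simp only [p4, p3]; omega⟩
  · have := e11d (c * 8 - d * 1) (by push_cast; exact q)
    exact ⟨.k7, by simp only [p4, p3]; omega⟩
  · have := e11d (c * 3 - d * 2) (by push_cast; exact q)
    exact ⟨.k8, by simp only [p4, p3]; omega⟩
  · have := e11d (c * 10 - d * 2) (by push_cast; exact q)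
    exact ⟨.k9, by simp only [p4, p3]; omega⟩
  · have := e11d (c * 10 - d * 1) (by push_cast; exact q)
    exact ⟨.k10, by simp only [p4, p3]; omega⟩

private theorem cop {r : ℕ} {a : ℤ} (h : ¬ (11 : ℤ) ∣ a) : IsUnit ((a : ℤ) : ZMod (11 ^ r)) := by
  have h1 : IsCoprime a 11 := by
    have := (Int.prime_ofNat_iff.2 (by norm_num : Nat.Prime 11)).coprime_iff_not_dvd.2 h
    exact this.symm
  have h2 : IsCoprime a ((11 ^ r : ℕ) : ℤ) := by
    push_cast
    exact h1.pow_right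
  exact (ZMod.coe_int_isUnit_iff_isCoprime a (11 ^ r)).2 h2.symm

private theorem pl_mk (r s : ℕ) {a b c d : ℤ} (h : a * d - 11 * (b * c) = 1) :
    ∃ (x : ZMod (11 ^ r)) (y : ZMod (11 ^ s)), Pl11 0 a b c d x y := by
  have h1 : ¬ (11 : ℤ) ∣ a := by
    rintro ⟨k, rfl⟩
    have : 11 * k * d = 11 * (k * d) := by ring
    omega
  have h2 : ¬ (11 : ℤ) ∣ d := by
    rintro ⟨k, rfl⟩
    have : a * (11 * k) = 11 * (a * k) := by ring
    omega
  refine ⟨(b : ZMod (11 ^ r)) * (a : ZMod (11 ^ r))⁻¹, (c : ZMod (11 ^ s)) * (d : ZMod (11 ^ s))⁻¹,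
    by linear_combination h, ?_, ?_⟩
  · rw [mul_assoc, ZMod.inv_mul_of_unit _ (cop h1), mul_one]
  · rw [mul_assoc, ZMod.inv_mul_of_unit _ (cop h2), mul_one]

/-- Module Uni. -/
theorem hUni (he : S11Edg) (ht : S11Tre) (hfar : Pool.Agent.Helper14.CV.StFar) : S11Uni := by
  intro R _ r s G hS hF
  have hG := hS.1
  refine hfar R inferInstance G hG ?_
  intro a b c d h
  -- at every point the five values are equal
  have f0 : ∀ (x : ZMod (11 ^ r)) (y : ZMod (11 ^ s)), ph G x y 1 0 = ph G x y 0 1 := fun x y => by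
    have := congrFun (congrFun (hF 0) x) y
    exact sub_eq_zero.1 this
  have f1 : ∀ (x : ZMod (11 ^ r)) (y : ZMod (11 ^ s)), ph G x y 1 3 = ph G x y 0 1 := fun x y => by
    have := congrFun (congrFun (hF 1) x) y
    exact sub_eq_zero.1 this
  have f2 : ∀ (x : ZMod (11 ^ r)) (y : ZMod (11 ^ s)), ph G x y 1 2 = ph G x y 0 1 := fun x y => by
    have := congrFun (congrFun (hF 2) x) y
    rw [← f1 x y]
    exact sub_eq_zero.1 this
  have f3 : ∀ (x : ZMod (11 ^ r)) (y : ZMod (11 ^ s)), ph G x y 1 1 = ph G x y 0 1 := fun x y => by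
    have t0 := ht R inferInstance r s G hS 1 1 0 1 1 0 0 1 (by norm_num) (by decide) (by decide) x y
    have t1 : tr11 1 1 0 1 (edge11 0 1 0 0 1 G : ZMod (11 ^ r) → ZMod (11 ^ s) → R) x y = 0 := by
      have := congrFun (congrFun (hF 0) ((((1 : ℤ) : ZMod (11 ^ r)) + (1 : ℤ) * x) *
        (((1 : ℤ) : ZMod (11 ^ r)) + 11 * (0 : ℤ) * x)⁻¹))
        ((((0 : ℤ) : ZMod (11 ^ s)) + (1 : ℤ) * y) * (((1 : ℤ) : ZMod (11 ^ s)) + 11 * (1 : ℤ) * y)⁻¹)
      exact this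
    rw [t1, edge_ph] at t0
    norm_num only at t0
    rw [f0, sub_eq_zero] at t0
    exact t0.symm
  obtain ⟨t, c', hc⟩ := ex c d
  obtain ⟨x, y, hp⟩ := pl_mk r s (a := a * p4 t - b * p3 t) (b := -a * p2 t + b * p1 t) (c := c')
    (d := -c * p2 t + d * p1 t) (by
      linear_combination (a * d - b * c) * e0 t + (-a * p2 t + b * p1 t) * hc + h)
  have h1 : p1 t ≠ 0 ∨ p3 t ≠ 0 := by cases t <;> decide
  have h2 : p2 t ≠ 0 ∨ p4 t ≠ 0 := by cases t <;> decide
  have hed := he R inferInstance 0 r s G (by rw [Nat.add_zero]; exact hS) (p1 t) (p3 t) (p2 t) (p4 t) h1 h2 x y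
    _ _ _ _ hp
  have e1 : (a * p4 t - b * p3 t) * p1 t + 11 ^ 0 * (-a * p2 t + b * p1 t) * p3 t = a := by
    linear_combination a * e0 t
  have e2 : 11 * c' * p1 t + (-c * p2 t + d * p1 t) * p3 t = c := by
    linear_combination c * e0 t - p1 t * hc
  have e3 : (a * p4 t - b * p3 t) * p2 t + 11 ^ 0 * (-a * p2 t + b * p1 t) * p4 t = b := by
    linear_combination b * e0 t
  have e4 : 11 * c' * p2 t + (-c * p2 t + d * p1 t) * p4 t = d := by
    linear_combination d * e0 t - p2 t * hc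
  rw [e1, e2, e3, e4, edge_ph] at hed
  have hz : ph G x y (p1 t) (p3 t) = ph G x y (p2 t) (p4 t) := by
    cases t <;> simp only [p1, p2, p3, p4]
    · have n : ph G x y (-1) 0 = ph G x y 1 0 := ph_neg hG x y (u1 := 1) (u2 := 0) (by decide)
      rw [f0] at n
      exact n.symm
    · rw [f0]
    · rw [f3]
    · rw [f2]
    · rw [f1]
    · have n : ph G x y (-1) (-2) = ph G x y 1 2 := ph_neg hG x y (u1 := 1) (u2 := 2) (by decide)
      rw [f2] at n
      rw [f1]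
      exact n.symm
    · have n : ph G x y (-1) (-2) = ph G x y 1 2 := ph_neg hG x y (u1 := 1) (u2 := 2) (by decide)
      rw [f2] at n
      exact n.symm
    · rw [f3, f2]
    · have n : ph G x y (-1) (-3) = ph G x y 1 3 := ph_neg hG x y (u1 := 1) (u2 := 3) (by decide)
      rw [f1] at n
      exact n.symm
    · rw [f2, f1]
    · have n : ph G x y (-1) (-1) = ph G x y 1 1 := ph_neg hG x y (u1 := 1) (u2 := 1) (by decide)
      rw [f3] at n
      rw [f2]
      exact n.symm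
    · have n : ph G x y (-1) (-1) = ph G x y 1 1 := ph_neg hG x y (u1 := 1) (u2 := 1) (by decide)
      rw [f3] at n
      exact n.symm
  rw [hz, sub_self] at hed
  exact (sub_eq_zero.1 hed.symm)

end Pool.Agent.Helper2.P11
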