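import Pool.Agent.Helper84.P11.StD1

/-!
# Project P11 (levels `11^n`): the plane functions of a symbol

The group of the matrices `(a b; 11c d)` of determinant one is free of rank three; fundamental hexagon (ideal) with vertices `∞, 0, 1/3, 1/2, 2/3, 1`, side pairings `T = (1 1; 0 1)`, `δ1 = (7 -2; 11 -3)` (`0 → 2/3`, `1/3 → 1/2`), `δ2 = (8 -3; 11 -4)` (`1/3 → 1`, `1/2 → 2/3`).
The THREE plane functions are the paths `F0 = {0 → ∞}`, `F1 = {0 → 1/3}`, `F2 = {1/3 → 1/2}`; there is ONE relation.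
-/

set_option autoImplicit false

namespace Pool.Agent.Helper2.P11

open Pool.Agent.Helper14.CV (Homog EqC act Tl StFar StFex)
open Pool.Agent.Helper28.WK (SymP Tw evw Ok)
open Pool.Agent.Helper84.P11 (Pl11 rY11 edge11 tr11 Fn11 S11PlA S11PlU S11Edg S11Trm S11Tre)

/-- The end point `u1P / u2P` of the path `i`. -/
def u1P : Fin 3 → ℤ := ![1, 1, 1]

/-- See `u1P`. -/
def u2P : Fin 3 → ℤ := ![0, 3, 2]

/-- The starting point `v1P / v2P` of the path `i`. -/
def v1P : Fin 3 → ℤ := ![0, 0, 1]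

/-- See `v1P`. -/
def v2P : Fin 3 → ℤ := ![1, 1, 3]

/-- The three plane functions of a symbol. -/
noncomputable def pf11 {R : Type} [AddCommGroup R] {q q' : ℕ} (G : ℤ → ℤ → R) (i : Fin 3) :
    ZMod q → ZMod q' → R := fun x y => edge11 0 (u1P i) (u2P i) (v1P i) (v2P i) G x y

/-- The left side of the relation, `F0 - F0∘T - (F1 - F1∘δ1) - (F2 - F2∘δ2)`. -/
def Df11 {R : Type} [AddCommGroup R] {q q' : ℕ} (F : Fin 3 → ZMod q → ZMod q' → R) :
    ZMod q → ZMod q' → R :=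
  fun x y => F 0 x y - tr11 1 1 0 1 (F 0) x y - (F 1 x y - tr11 7 (-2) 1 (-3) (F 1) x y) -
    (F 2 x y - tr11 8 (-3) 1 (-4) (F 2) x y)

/-- The relation between the three functions. -/
def Rel11 {R : Type} [AddCommGroup R] {q q' : ℕ} (F : Fin 3 → ZMod q → ZMod q' → R) : Prop :=
  ∀ x y, Df11 F x y = 0

/-- REL (from TRE). The plane functions of a symbol satisfy the relation: with `[z]` for `G(g z)`:
`F0(p) - F0(pT) = [1] - [0]`; `F1(p) - F1(pδ1) = ([1/3] - [0]) - ([1/2] - [2/3])`;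
`F2(p) - F2(pδ2) = ([1/2] - [1/3]) - ([2/3] - [1])`: the last two add up to `[1] - [0]`. -/
def S11Rel : Prop := ∀ (R : Type) (_ : AddCommGroup R) (r s : ℕ) (G : ℤ → ℤ → R),
  SymP 11 r (s + 1) G → Rel11 (fun i => (pf11 G i : ZMod (11 ^ r) → ZMod (11 ^ s) → R))

/-- EX (from TRM, PLA, EDG, FEX, FAR of CV). Every solution of the relation comes from a symbol. The function `E g` (path `g{0 → ∞}`, `g` in `SL₂(ℤ)`) by the twelve classes `c/d` modulo `11`: six representatives `ρ` and their products with `S` (with the opposite sign):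
`1`: `F0`; `(1 0; 3 1)`: `F1`; `(1 1; 2 3)`: `F2`; `(1 0; 1 1)`: `F0 - F0∘T`; `(1 0; 2 1)`: `F1 + F2`; `(1 1; 1 2)`: `-F1∘δ1 - F2∘δ2`. Triangle relation: up to rotation the triangles `γ{∞,0,1}`, `γ{0,1/2,1}` (the relation), `γ{0,1/3,1/2}`, `γ{1/2,2/3,1}`. -/
def S11Ex : Prop := ∀ (R : Type) (_ : AddCommGroup R) (r s : ℕ)
  (F : Fin 3 → ZMod (11 ^ r) → ZMod (11 ^ s) → R), Rel11 F →
  ∃ G : ℤ → ℤ → R, SymP 11 r (s + 1) G ∧ ∀ i, pf11 G i = F i

/-- UNI (from EDG, PLA, FAR). A symbol with `F0 = F1 = F2 = 0` is constant. -/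
def S11Uni : Prop := ∀ (R : Type) (_ : AddCommGroup R) (r s : ℕ) (G : ℤ → ℤ → R),
  SymP 11 r (s + 1) G → (∀ i, (pf11 G i : ZMod (11 ^ r) → ZMod (11 ^ s) → R) = 0) → EqC G 0

/-- LIFP (from TRM). Lifting solutions of the relation to integers. Take any integral lifts of `f`; the defect `E = Df11` of the lifts is divisible by 11 and has total sum zero over the plane (`p ↦ pT`, `p ↦ pδ_i` are bijections, TRM); `E/11` has total sum zero, and every integral function with sum zero is `Df11 F` for some `F`,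
because modulo such functions `δ_p ≡ δ_(pg)` for `g = T, δ1, δ2`, so also for `B' = (1 0; -11 1) = T⁻¹ δ2 δ1⁻¹ δ2⁻¹ δ1` (exactly), and the plane is connected under `T` and `B'` (`(x,y) T^z = (x + z, y/(1 + 11zy))`, `(x, y) B'^z = (x/(1 - 11zx), y - z)`: move to `(0, y')` and then to `(0,0)`). Subtract `11` times this `F`.
Model: `Pool/Agent/Helper89/TK/M_Lifp.lean`. -/
def S11Lifp : Prop := ∀ (r s : ℕ) (f : Fin 3 → Fn11 (11 ^ r) (11 ^ s)), Rel11 f →
  ∃ F : Fin 3 → ZMod (11 ^ r) → ZMod (11 ^ s) → ℤ, Rel11 F ∧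
    ∀ i x y, ((F i x y : ℤ) : ZMod 11) = f i x y

end Pool.Agent.Helper2.P11
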